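import Mathlib

set_option autoImplicit false

namespace Pool.Agent.Results.MP_9c5c66_al.Continuum

/-! ## Algebras, terms, identities, varieties in the signature `{+,·}` -/

/-- An algebra in the signature `{+,·}`: a set with two binary operations. -/
structure Alg : Type 1 where
  /-- the underlying set -/
  carrier : Type
  /-- the operation `+` -/
  add : carrier → carrier → carrier
  /-- the operation `·` -/
  mul : carrier → carrier → carrier

/-- Terms in the signature `{+,·}` over the set `X` of variables. -/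
inductive Term (X : Type) : Type
  | var : X → Term X
  | add : Term X → Term X → Term X
  | mul : Term X → Term X → Term X

/-- The value of a term in the algebra `A` under the assignment `φ` of the variables. -/
def Term.eval {X : Type} (A : Alg) (φ : X → A.carrier) : Term X → A.carrier
  | .var x => φ x
  | .add s t => A.add (s.eval A φ) (t.eval A φ)
  | .mul s t => A.mul (s.eval A φ) (t.eval A φ)

/-- The algebra `A` satisfies the identity `e.1 ≈ e.2` (terms over countably many variables). -/
def Satisfies (A : Alg) (e : Term ℕ × Term ℕ) : Prop :=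
  ∀ φ : ℕ → A.carrier, e.1.eval A φ = e.2.eval A φ

/-- A variety: the class of all algebras satisfying some set of identities. -/
def IsVariety (V : Set Alg) : Prop :=
  ∃ E : Set (Term ℕ × Term ℕ), V = {A | ∀ e ∈ E, Satisfies A e}

/-- The variety generated by `A`: the intersection of all varieties containing `A`. -/
def generated (A : Alg) : Set Alg := {B | ∀ V : Set Alg, IsVariety V → A ∈ V → B ∈ V}

/-! ## The semirings `S_7` and `S_7^0` -/

/-- The three elements `1, a, t` of `S_7`. -/
inductive E7 : Type
  | one | a | t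
  deriving DecidableEq

/-- Addition of `S_7`: `1+1=1`, `a+a=a`, every other sum is `t`. -/
def E7.add : E7 → E7 → E7
  | .one, .one => .one
  | .a, .a => .a
  | _, _ => .t

/-- Multiplication of `S_7`: `1` is the identity, every other product is `t`. -/
def E7.mul : E7 → E7 → E7
  | .one, x => x
  | x, .one => x
  | _, _ => .t

/-- The semiring `S_7`. -/
abbrev S7 : Alg := ⟨E7, E7.add, E7.mul⟩

/-- The four elements `0, 1, a, t` of `S_7^0`. -/
inductive E70 : Type
  | zero | one | a | t
  deriving DecidableEq

/-- Addition of `S_7^0`: `0+x=x+0=x`, otherwise as in `S_7`. -/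
def E70.add : E70 → E70 → E70
  | .zero, x => x
  | x, .zero => x
  | .one, .one => .one
  | .a, .a => .a
  | _, _ => .t

/-- Multiplication of `S_7^0`: `0x=x0=0`, otherwise as in `S_7`. -/
def E70.mul : E70 → E70 → E70
  | .zero, _ => .zero
  | _, .zero => .zero
  | .one, x => x
  | x, .one => x
  | _, _ => .t

/-- The semiring `S_7^0`. -/
abbrev S70 : Alg := ⟨E70, E70.add, E70.mul⟩

/-! ## Words of a term, and evaluation in `S_7^0` -/

instance : Fintype E7 := ⟨{.one, .a, .t}, by intro x; cases x <;> decide⟩

instance : Fintype E70 := ⟨{.zero, .one, .a, .t}, by intro x; cases x <;> decide⟩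

/-- The set of (commutative) words of a term. -/
def words {X : Type} : Term X → Set (Multiset X)
  | .var x => {{x}}
  | .add s t => words s ∪ words t
  | .mul s t => {w | ∃ u ∈ words s, ∃ v ∈ words t, w = u + v}

theorem words_nonempty {X : Type} (t : Term X) : (words t).Nonempty := by
  induction t with
  | var x => exact ⟨{x}, rfl⟩
  | add s t hs ht => exact hs.mono (Set.subset_union_left)
  | mul s t hs ht =>
    obtain ⟨u, hu⟩ := hs
    obtain ⟨v, hv⟩ := ht
    exact ⟨u + v, u, hu, v, hv, rfl⟩

theorem card_pos_of_mem_words {X : Type} (t : Term X) :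
    ∀ w ∈ words t, 1 ≤ Multiset.card w := by
  induction t with
  | var x =>
    intro w hw
    have : w = {x} := hw
    subst this
    simp
  | add s t hs ht =>
    intro w hw
    rcases hw with hw | hw
    · exact hs w hw
    · exact ht w hw
  | mul s t hs ht =>
    rintro w ⟨u, hu, v, hv, rfl⟩
    have := hs u hu
    rw [Multiset.card_add]
    omega

instance : CommMonoid E70 where
  mul := E70.mul
  one := E70.one
  mul_assoc := by intro x y z; revert x y z; decide
  one_mul := by intro x; revert x; decide
  mul_one := by intro x; revert x; decide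
  mul_comm := by intro x y; revert x y; decide

/-- The order of the semilattice `(S_7^0,+)`. -/
def le70 (x y : E70) : Prop := E70.add x y = y

instance : DecidableRel le70 := fun x y => inferInstanceAs (Decidable (E70.add x y = y))

theorem residual (y c : E70) : ∃ r, ∀ x, le70 (E70.mul x y) c ↔ le70 x r := by
  revert y c; decide

theorem add_le (x y c : E70) : le70 (E70.add x y) c ↔ le70 x c ∧ le70 y c := by
  revert x y c; decide

theorem mul_comm70 (x y : E70) : E70.mul x y = E70.mul y x := by
  revert x y; decide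

theorem le_refl70 (x : E70) : le70 x x := by revert x; decide

theorem le_antisymm70 (x y : E70) : le70 x y → le70 y x → x = y := by revert x y; decide

theorem le_trans70 (x y z : E70) : le70 x y → le70 y z → le70 x z := by revert x y z; decide

/-- Value of a word in `S_7^0`. -/
def wval {X : Type} (ψ : X → E70) (w : Multiset X) : E70 := (w.map ψ).prod

theorem wval_add {X : Type} (ψ : X → E70) (u v : Multiset X) :
    wval ψ (u + v) = E70.mul (wval ψ u) (wval ψ v) := by
  unfold wval
  rw [Multiset.map_add, Multiset.prod_add]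
  rfl

theorem eval_le_iff {X : Type} (ψ : X → E70) (t : Term X) :
    ∀ c : E70, le70 (t.eval S70 ψ) c ↔ ∀ w ∈ words t, le70 (wval ψ w) c := by
  induction t with
  | var x =>
    intro c
    have h : wval ψ {x} = ψ x := by simp [wval]
    constructor
    · intro hc w hw
      have : w = {x} := hw
      subst this
      rw [h]; exact hc
    · intro hc
      have := hc {x} rfl
      rw [h] at this
      exact this
  | add s t hs ht =>
    intro c
    have : (Term.add s t).eval S70 ψ = E70.add (s.eval S70 ψ) (t.eval S70 ψ) := rfl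
    rw [this, add_le, hs c, ht c]
    constructor
    · rintro ⟨h1, h2⟩ w (hw | hw)
      · exact h1 w hw
      · exact h2 w hw
    · intro h
      exact ⟨fun w hw => h w (Or.inl hw), fun w hw => h w (Or.inr hw)⟩
  | mul s t hs ht =>
    intro c
    have : (Term.mul s t).eval S70 ψ = E70.mul (s.eval S70 ψ) (t.eval S70 ψ) := rfl
    rw [this]
    obtain ⟨r, hr⟩ := residual (t.eval S70 ψ) c
    rw [hr, hs r]
    constructor
    · rintro h w ⟨u, hu, v, hv, rfl⟩
      have h1 := (hr _).2 (h u hu)
      rw [mul_comm70] at h1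
      obtain ⟨r', hr'⟩ := residual (wval ψ u) c
      rw [hr', ht r'] at h1
      have h2 := (hr' _).2 (h1 v hv)
      rw [wval_add, mul_comm70]
      exact h2
    · intro h u hu
      rw [← hr, mul_comm70]
      obtain ⟨r', hr'⟩ := residual (wval ψ u) c
      rw [hr', ht r']
      intro v hv
      rw [← hr', mul_comm70, ← wval_add]
      exact h _ ⟨u, hu, v, hv, rfl⟩

/-! ## Substitution and syntactic algebras -/

/-- Substitution of terms for variables. -/
def Term.subst {X Y : Type} (σ : Y → Term X) : Term Y → Term X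
  | .var y => σ y
  | .add s t => .add (s.subst σ) (t.subst σ)
  | .mul s t => .mul (s.subst σ) (t.subst σ)

theorem eval_subst {X Y : Type} (A : Alg) (φ : X → A.carrier) (σ : Y → Term X) (t : Term Y) :
    (t.subst σ).eval A φ = t.eval A (fun y => (σ y).eval A φ) := by
  induction t with
  | var y => rfl
  | add s t hs ht => simp only [Term.subst, Term.eval, hs, ht]
  | mul s t hs ht => simp only [Term.subst, Term.eval, hs, ht]

/-- Contexts of a term relative to a set `q` of words. -/
def ctx {X : Type} (q : Set (Multiset X)) (t : Term X) : Set (Multiset X) :=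
  {p | ∀ w ∈ words t, p + w ∈ q}

theorem ctx_add {X : Type} (q : Set (Multiset X)) (s t : Term X) :
    ctx q (.add s t) = ctx q s ∩ ctx q t := by
  ext p
  constructor
  · intro h
    exact ⟨fun w hw => h w (Or.inl hw), fun w hw => h w (Or.inr hw)⟩
  · rintro ⟨h1, h2⟩ w (hw | hw)
    · exact h1 w hw
    · exact h2 w hw

theorem ctx_mul {X : Type} (q : Set (Multiset X)) (s t : Term X) :
    ctx q (.mul s t) = {p | ∀ v ∈ words t, p + v ∈ ctx q s} := by
  ext p
  constructor
  · intro h v hv u hu
    have := h (u + v) ⟨u, hu, v, hv, rfl⟩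
    have e : p + v + u = p + (u + v) := by rw [add_assoc, add_comm v u]
    rw [e]; exact this
  · rintro h w ⟨u, hu, v, hv, rfl⟩
    have := h v hv u hu
    have e : p + v + u = p + (u + v) := by rw [add_assoc, add_comm v u]
    rw [← e]; exact this

theorem ctx_mul' {X : Type} (q : Set (Multiset X)) (s t : Term X) :
    ctx q (.mul s t) = {p | ∀ u ∈ words s, p + u ∈ ctx q t} := by
  ext p
  constructor
  · intro h u hu v hv
    have := h (u + v) ⟨u, hu, v, hv, rfl⟩
    rw [add_assoc]; exact this
  · rintro h w ⟨u, hu, v, hv, rfl⟩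
    have := h u hu v hv
    rw [← add_assoc]; exact this

/-- The syntactic congruence of `q`. -/
def synSetoid {X : Type} (q : Set (Multiset X)) : Setoid (Term X) where
  r s t := ctx q s = ctx q t
  iseqv := ⟨fun _ => rfl, fun h => h.symm, fun h1 h2 => h1.trans h2⟩

/-- The syntactic algebra of `q`. -/
def synAlg {X : Type} (q : Set (Multiset X)) : Alg where
  carrier := Quotient (synSetoid q)
  add := Quotient.map₂ Term.add (by
    intro s s' hs t t' ht
    change ctx q _ = ctx q _
    have hs : ctx q s = ctx q s' := hs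
    have ht : ctx q t = ctx q t' := ht
    rw [ctx_add, ctx_add, hs, ht])
  mul := Quotient.map₂ Term.mul (by
    intro s s' hs t t' ht
    change ctx q _ = ctx q _
    have hs : ctx q s = ctx q s' := hs
    have ht : ctx q t = ctx q t' := ht
    rw [ctx_mul, hs, ← ctx_mul, ctx_mul', ht, ← ctx_mul'])

theorem eval_syn {X Y : Type} (q : Set (Multiset X)) (σ : Y → Term X) (t : Term Y) :
    t.eval (synAlg q) (fun y => (Quotient.mk (synSetoid q) (σ y))) =
      Quotient.mk (synSetoid q) (t.subst σ) := by
  induction t with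
  | var y => rfl
  | add s t hs ht =>
    simp only [Term.eval, Term.subst, hs, ht]
    rfl
  | mul s t hs ht =>
    simp only [Term.eval, Term.subst, hs, ht]
    rfl

theorem syn_satisfies_iff {X : Type} (q : Set (Multiset X)) (e : Term ℕ × Term ℕ) :
    Satisfies (synAlg q) e ↔ ∀ σ : ℕ → Term X, ctx q (e.1.subst σ) = ctx q (e.2.subst σ) := by
  constructor
  · intro h σ
    have := h (fun y => (Quotient.mk (synSetoid q) (σ y)))
    rw [eval_syn, eval_syn] at this
    exact Quotient.exact this
  · intro h φ
    have hφ : φ = fun y => (Quotient.mk (synSetoid q) ((φ y).out)) := by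
      funext y
      exact (Quotient.out_eq (φ y)).symm
    rw [hφ, eval_syn, eval_syn]
    exact Quotient.sound (h _)

/-! ## Line systems -/

/-- A `k`-uniform line system with enough transversals. -/
structure Nice {X : Type} (k : ℕ) (q : Set (Multiset X)) : Prop where
  nodup : ∀ w ∈ q, w.Nodup
  card : ∀ w ∈ q, Multiset.card w = k
  inter : ∀ w ∈ q, ∀ w' ∈ q, w ≠ w' → ∀ x y, x ∈ w → x ∈ w' → y ∈ w → y ∈ w' → x = y
  trans : ∀ w ∈ q, ∀ w' ∈ q, w ≠ w' → ∃ A : Set X,
    (∀ l ∈ q, ∃! x, x ∈ l ∧ x ∈ A) ∧ ∃ x ∈ w, ∃ y ∈ w', x ≠ y ∧ x ∈ A ∧ y ∈ A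

theorem wval_cons {X : Type} (ψ : X → E70) (x : X) (w : Multiset X) :
    wval ψ (x ::ₘ w) = E70.mul (ψ x) (wval ψ w) := by
  unfold wval
  rw [Multiset.map_cons, Multiset.prod_cons]
  rfl

theorem wval_zero_of_mem {X : Type} (ψ : X → E70) (x : X) (w : Multiset X) (hx : x ∈ w)
    (h : ψ x = .zero) : wval ψ w = .zero := by
  obtain ⟨v, rfl⟩ := Multiset.exists_cons_of_mem hx
  rw [wval_cons, h]
  generalize wval ψ v = z
  revert z; decide

theorem wval_one {X : Type} (ψ : X → E70) (w : Multiset X) (h : ∀ x ∈ w, ψ x = .one) :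
    wval ψ w = .one := by
  induction w using Multiset.induction_on with
  | empty => rfl
  | cons x w ih =>
    rw [wval_cons, h x (Multiset.mem_cons_self x w),
      ih (fun y hy => h y (Multiset.mem_cons_of_mem hy))]
    rfl

theorem wval_ne_zero {X : Type} (ψ : X → E70) (w : Multiset X) (h : ∀ x ∈ w, ψ x ≠ .zero) :
    wval ψ w ≠ .zero := by
  induction w using Multiset.induction_on with
  | empty => exact (by decide : E70.one ≠ E70.zero)
  | cons x w ih =>
    rw [wval_cons]
    have h1 := h x (Multiset.mem_cons_self x w)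
    have h2 := ih (fun y hy => h y (Multiset.mem_cons_of_mem hy))
    generalize wval ψ w = z at h2
    generalize ψ x = y at h1
    revert h1 h2
    revert y z
    decide

theorem wval_a {X : Type} (ψ : X → E70) (x : X) (w : Multiset X) (hw : w.Nodup) (hx : x ∈ w)
    (h : ψ x = .a) (h' : ∀ y ∈ w, y ≠ x → ψ y = .one) : wval ψ w = .a := by
  obtain ⟨v, rfl⟩ := Multiset.exists_cons_of_mem hx
  have hv : x ∉ v := (Multiset.nodup_cons.1 hw).1
  rw [wval_cons, h, wval_one]
  · rfl
  · intro y hy
    exact h' y (Multiset.mem_cons_of_mem hy) (fun e => hv (e ▸ hy))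

theorem wval_t_of_two {X : Type} (ψ : X → E70) (x y : X) (v w : Multiset X)
    (e : w = x ::ₘ y ::ₘ v)
    (hx : ψ x = .a) (hy : ψ y = .a) (h : ∀ z ∈ w, ψ z ≠ .zero) :
    wval ψ w = .t := by
  subst e
  rw [wval_cons, wval_cons, hx, hy]
  have := wval_ne_zero ψ v
    (fun z hz => h z (Multiset.mem_cons_of_mem (Multiset.mem_cons_of_mem hz)))
  generalize wval ψ v = z at this
  revert this; revert z; decide

theorem wval_t_of_mem {X : Type} (ψ : X → E70) (x : X) (w : Multiset X) (hx : x ∈ w)
    (h : ψ x = .t) (h' : ∀ y ∈ w, ψ y ≠ .zero) : wval ψ w = .t := by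
  obtain ⟨v, rfl⟩ := Multiset.exists_cons_of_mem hx
  rw [wval_cons, h]
  have := wval_ne_zero ψ v (fun y hy => h' y (Multiset.mem_cons_of_mem hy))
  generalize wval ψ v = z at this
  revert this; revert z; decide

/-- Key step: the syntactic algebra of a nice line system satisfies the identities of `S_7^0`. -/
theorem ctx_subset {X : Type} {k : ℕ} {q : Set (Multiset X)} (hq : Nice k q) (s t : Term X)
    (h : ∀ ψ : X → E70, s.eval S70 ψ = t.eval S70 ψ) : ctx q s ⊆ ctx q t := by
  classical
  intro p hp w hw
  set W := p + w with hW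
  -- the key comparison
  have key : ∀ (ψ : X → E70) (c : E70), (∀ l ∈ q, (∃ w' ∈ words s, l = p + w') →
      le70 (wval ψ l) c) → le70 (wval ψ W) c := by
    intro ψ c hc
    obtain ⟨r, hr⟩ := residual (wval ψ p) c
    have h1 : ∀ w' ∈ words s, le70 (wval ψ w') r := by
      intro w' hw'
      rw [← hr, mul_comm70, ← wval_add]
      exact hc _ (hp w' hw') ⟨w', hw', rfl⟩
    have h2 := (eval_le_iff ψ s r).2 h1
    rw [h ψ] at h2
    have h3 := (eval_le_iff ψ t r).1 h2 w hw
    rw [← hr, mul_comm70, ← wval_add] at h3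
    exact h3
  -- step 1 : some line of `Q'` lies inside the support of `W`
  have step1 : ∃ l ∈ q, (∃ w' ∈ words s, l = p + w') ∧ ∀ x ∈ l, x ∈ W := by
    by_contra hcon
    push Not at hcon
    have := key (fun x => if x ∈ W then .one else .zero) .zero (by
      intro l hl hl'
      obtain ⟨x, hx, hxW⟩ := hcon l hl hl'
      rw [wval_zero_of_mem _ x l hx (by simp [hxW])]
      decide)
    rw [wval_one] at this
    · revert this; decide
    · intro x hx
      simp [hx]
  -- step 2 : the lines inside the support of `W` cover it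
  have step2 : ∀ x ∈ W, ∃ l ∈ q, (∃ w' ∈ words s, l = p + w') ∧ (∀ y ∈ l, y ∈ W) ∧ x ∈ l := by
    intro x hx
    by_contra hcon
    push Not at hcon
    have := key (fun y => if y ∈ W then (if y = x then .t else .one) else .zero) .one (by
      intro l hl hl'
      by_cases hlW : ∀ y ∈ l, y ∈ W
      · have hxl : x ∉ l := hcon l hl hl' hlW
        rw [wval_one]
        · decide
        · intro y hy
          have : y ≠ x := fun e => hxl (e ▸ hy)
          simp [hlW y hy, this]
      · push Not at hlW
        obtain ⟨y, hy, hyW⟩ := hlW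
        rw [wval_zero_of_mem _ y l hy (by simp [hyW])]
        decide)
    rw [wval_t_of_mem _ x W hx (by simp [hx]) (by
      intro y hy
      by_cases e : y = x
      · simp [e, hx]
      · simp [hy, e])] at this
    revert this; decide
  -- step 3 : there is only one such line
  have step3 : ∀ l ∈ q, (∃ w' ∈ words s, l = p + w') → (∀ y ∈ l, y ∈ W) →
      ∀ l' ∈ q, (∃ w' ∈ words s, l' = p + w') → (∀ y ∈ l', y ∈ W) → l = l' := by
    intro l hl _ hlW l' hl' _ hlW'
    by_contra hne
    obtain ⟨A, hA, x, hx, y, hy, hxy, hxA, hyA⟩ := hq.trans l hl l' hl' hne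
    have := key (fun z => if z ∈ W then (if z ∈ A then .a else .one) else .zero) .a (by
      intro m hm _
      by_cases hmW : ∀ y ∈ m, y ∈ W
      · obtain ⟨z, ⟨hz1, hz2⟩, hz3⟩ := hA m hm
        rw [wval_a _ z m (hq.nodup m hm) hz1 (by simp [hmW z hz1, hz2])]
        · decide
        · intro u hu hne'
          have : u ∉ A := fun huA => hne' (hz3 u ⟨hu, huA⟩)
          simp [hmW u hu, this]
      · push Not at hmW
        obtain ⟨y, hy, hyW⟩ := hmW
        rw [wval_zero_of_mem _ y m hy (by simp [hyW])]
        decide)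
    obtain ⟨v, hv⟩ := Multiset.exists_cons_of_mem (hlW x hx)
    have hyv : y ∈ v := by
      have := hlW' y hy
      rw [hv, Multiset.mem_cons] at this
      rcases this with e | e
      · exact absurd e.symm hxy
      · exact e
    obtain ⟨v', hv'⟩ := Multiset.exists_cons_of_mem hyv
    have hval : wval (fun z => if z ∈ W then (if z ∈ A then E70.a else .one) else .zero) W
        = .t := by
      have e : W = x ::ₘ y ::ₘ v' := by rw [hv, hv']
      refine wval_t_of_two _ x y v' W e ?_ ?_ ?_
      · simp [hlW x hx, hxA]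
      · simp [hlW' y hy, hyA]
      · intro z hzW
        by_cases hzA : z ∈ A <;> simp [hzW, hzA]
    rw [hval] at this
    revert this; decide
  obtain ⟨l, hl, hl1, hlW⟩ := step1
  have hWl : ∀ x ∈ W, x ∈ l := by
    intro x hx
    obtain ⟨l', hl', hl1', hlW', hx'⟩ := step2 x hx
    rw [step3 l hl hl1 hlW l' hl' hl1' hlW']
    exact hx'
  -- step 4 : `W` has no repeated letter
  have step4 : W.Nodup := by
    rw [Multiset.nodup_iff_le]
    intro x hx
    obtain ⟨v', e⟩ := Multiset.le_iff_exists_add.1 hx
    have e' : W = x ::ₘ x ::ₘ v' := by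
      rw [e]
      simp
    have hxW : x ∈ W := by rw [e']; exact Multiset.mem_cons_self _ _
    have := key (fun z => if z ∈ W then (if z = x then .a else .one) else .zero) .a (by
      intro m hm hm1
      by_cases hmW : ∀ y ∈ m, y ∈ W
      · have hml : l = m := step3 l hl hl1 hlW m hm hm1 hmW
        subst hml
        rw [wval_a _ x l (hq.nodup l hl) (hWl x hxW) (by simp [hxW])]
        · decide
        · intro u hu hne'
          simp [hmW u hu, hne']
      · push Not at hmW
        obtain ⟨y, hy, hyW⟩ := hmW
        rw [wval_zero_of_mem _ y m hy (by simp [hyW])]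
        decide)
    have hval : wval (fun z => if z ∈ W then (if z = x then E70.a else .one) else .zero) W
        = .t := by
      refine wval_t_of_two _ x x v' W e' ?_ ?_ ?_
      · simp [hxW]
      · simp [hxW]
      · intro z hzW
        by_cases hzA : z = x
        · simp [hxW, hzA]
        · simp [hzW, hzA]
    rw [hval] at this
    revert this; decide
  have : W = l := (Multiset.Nodup.ext step4 (hq.nodup l hl)).2 (fun x => ⟨hWl x, hlW x⟩)
  rw [this]
  exact hl

theorem syn_of_S70 {X : Type} {k : ℕ} {q : Set (Multiset X)} (hq : Nice k q)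
    (e : Term ℕ × Term ℕ) (he : Satisfies S70 e) : Satisfies (synAlg q) e := by
  rw [syn_satisfies_iff]
  intro σ
  have h : ∀ ψ : X → E70, (e.1.subst σ).eval S70 ψ = (e.2.subst σ).eval S70 ψ := by
    intro ψ
    rw [eval_subst, eval_subst]
    exact he _
  exact Set.Subset.antisymm (ctx_subset hq _ _ h) (ctx_subset hq _ _ (fun ψ => (h ψ).symm))

/-! ## The grid identities -/

/-- The product `f 0 · f 1 · ⋯ · f n`. -/
def prodT (f : ℕ → Term ℕ) : ℕ → Term ℕ
  | 0 => f 0
  | n + 1 => .mul (prodT f n) (f (n + 1))

/-- The sum `f 0 + f 1 + ⋯ + f n`. -/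
def sumT (f : ℕ → Term ℕ) : ℕ → Term ℕ
  | 0 => f 0
  | n + 1 => .add (sumT f n) (f (n + 1))

/-- The variable `x_{i,j}`. -/
def gvar (i j : ℕ) : Term ℕ := .var (Nat.pair i j)

/-- The product of row `i` of the `(n+1) × (n+1)` matrix of variables. -/
def rowT (n i : ℕ) : Term ℕ := prodT (fun j => gvar i j) n

/-- The product of column `j` of the `(n+1) × (n+1)` matrix of variables. -/
def colT (n j : ℕ) : Term ℕ := prodT (fun i => gvar i j) n

/-- Sum of all row products and of all column products except the last one. -/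
def lhsT (n : ℕ) : Term ℕ := .add (sumT (rowT n) n) (sumT (colT n) (n - 1))

/-- The grid identity: the last column product is absorbed. -/
def grid (n : ℕ) : Term ℕ × Term ℕ := (lhsT n, .add (lhsT n) (colT n n))

theorem mem_words_prodT {X : Type} (σ : ℕ → Term X) (f : ℕ → Term ℕ) (n : ℕ) :
    ∀ w, w ∈ words ((prodT f n).subst σ) ↔ ∃ θ : ℕ → Multiset X,
      (∀ j ≤ n, θ j ∈ words ((f j).subst σ)) ∧ w = ∑ j ∈ Finset.range (n + 1), θ j := by
  induction n with
  | zero =>
    intro w
    constructor
    · intro hw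
      exact ⟨fun _ => w, fun j hj => by
        obtain rfl : j = 0 := by omega
        exact hw, by simp⟩
    · rintro ⟨θ, h, rfl⟩
      simpa [prodT] using h 0 le_rfl
  | succ n ih =>
    intro w
    constructor
    · rintro ⟨u, hu, v, hv, rfl⟩
      obtain ⟨θ, h, rfl⟩ := (ih u).1 hu
      refine ⟨fun j => if j = n + 1 then v else θ j, ?_, ?_⟩
      · intro j hj
        by_cases e : j = n + 1
        · subst e
          simpa using hv
        · have : j ≤ n := by omega
          simpa [e] using h j this
      · rw [Finset.sum_range_succ _ (n + 1)]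
        simp only [if_true]
        congr 1
        refine Finset.sum_congr rfl ?_
        intro j hj
        have : j ≠ n + 1 := by
          have := Finset.mem_range.1 hj
          omega
        simp [this]
    · rintro ⟨θ, h, rfl⟩
      rw [Finset.sum_range_succ]
      exact ⟨_, (ih _).2 ⟨θ, fun j hj => h j (by omega), rfl⟩, _, h (n + 1) le_rfl, rfl⟩

theorem mem_words_sumT {X : Type} (σ : ℕ → Term X) (f : ℕ → Term ℕ) (n : ℕ) :
    ∀ w, w ∈ words ((sumT f n).subst σ) ↔ ∃ j ≤ n, w ∈ words ((f j).subst σ) := by
  induction n with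
  | zero =>
    intro w
    constructor
    · intro hw
      exact ⟨0, le_rfl, hw⟩
    · rintro ⟨j, hj, hw⟩
      obtain rfl : j = 0 := by omega
      exact hw
  | succ n ih =>
    intro w
    constructor
    · rintro (hw | hw)
      · obtain ⟨j, hj, h⟩ := (ih w).1 hw
        exact ⟨j, by omega, h⟩
      · exact ⟨n + 1, le_rfl, hw⟩
    · rintro ⟨j, hj, hw⟩
      by_cases e : j = n + 1
      · subst e
        exact Or.inr hw
      · exact Or.inl ((ih w).2 ⟨j, by omega, hw⟩)

theorem subst_var {X : Type} (t : Term X) : t.subst Term.var = t := by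
  induction t with
  | var x => rfl
  | add s t hs ht => simp only [Term.subst, hs, ht]
  | mul s t hs ht => simp only [Term.subst, hs, ht]

theorem mem_words_lhs {X : Type} (σ : ℕ → Term X) (n : ℕ) (hn : 1 ≤ n) (w : Multiset X) :
    w ∈ words ((lhsT n).subst σ) ↔ (∃ i ≤ n, w ∈ words ((rowT n i).subst σ)) ∨
      ∃ j < n, w ∈ words ((colT n j).subst σ) := by
  have : words ((lhsT n).subst σ) = words ((sumT (rowT n) n).subst σ) ∪
    words ((sumT (colT n) (n - 1)).subst σ) := rfl
  rw [this]
  constructor
  · rintro (h | h)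
    · exact Or.inl ((mem_words_sumT σ _ _ w).1 h)
    · obtain ⟨j, hj, h⟩ := (mem_words_sumT σ _ _ w).1 h
      exact Or.inr ⟨j, by omega, h⟩
  · rintro (h | ⟨j, hj, h⟩)
    · exact Or.inl ((mem_words_sumT σ _ _ w).2 h)
    · exact Or.inr ((mem_words_sumT σ _ _ w).2 ⟨j, by omega, h⟩)

/-- The combinatorial heart: a matrix of nonempty words whose row products and all but the last
column products are lines has a line as its last column product, if the size is not `k`. -/
theorem grid_lemma {X : Type} {k : ℕ} {q : Set (Multiset X)}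
    (nd : ∀ w ∈ q, w.Nodup) (cd : ∀ w ∈ q, Multiset.card w = k)
    (inter : ∀ w ∈ q, ∀ w' ∈ q, w ≠ w' → ∀ x y, x ∈ w → x ∈ w' → y ∈ w → y ∈ w' → x = y)
    (n : ℕ) (hn : n + 1 ≠ k) (Θ : ℕ → ℕ → Multiset X) (p : Multiset X)
    (hΘ : ∀ i ≤ n, ∀ j ≤ n, 1 ≤ Multiset.card (Θ i j))
    (hrow : ∀ i ≤ n, p + ∑ j ∈ Finset.range (n + 1), Θ i j ∈ q)
    (hcol : ∀ j < n, p + ∑ i ∈ Finset.range (n + 1), Θ i j ∈ q) :
    p + ∑ i ∈ Finset.range (n + 1), Θ i n ∈ q := by
  classical
  set W : ℕ → Multiset X := fun i => p + ∑ j ∈ Finset.range (n + 1), Θ i j with hW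
  set V : ℕ → Multiset X := fun j => p + ∑ i ∈ Finset.range (n + 1), Θ i j with hV
  have hrow' : ∀ i ≤ n, W i ∈ q := hrow
  have hcol' : ∀ j < n, V j ∈ q := hcol
  have card_sum : ∀ (f : ℕ → Multiset X), Multiset.card (∑ j ∈ Finset.range (n + 1), f j)
      = ∑ j ∈ Finset.range (n + 1), Multiset.card (f j) := by
    intro f
    exact map_sum Multiset.cardHom f (Finset.range (n + 1))
  have hnk : n + 1 < k := by
    have h1 := cd _ (hrow' 0 (Nat.zero_le _))
    have h2 : n + 1 ≤ Multiset.card (W 0) := by
      simp only [hW]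
      rw [Multiset.card_add, card_sum]
      have : ∑ j ∈ Finset.range (n + 1), 1 ≤
          ∑ j ∈ Finset.range (n + 1), Multiset.card (Θ 0 j) := by
        refine Finset.sum_le_sum ?_
        intro j hj
        exact hΘ 0 (Nat.zero_le _) j (by
          have := Finset.mem_range.1 hj
          omega)
      simp at this
      omega
    omega
  have leW : ∀ i ≤ n, ∀ j ≤ n, p + Θ i j ≤ W i := by
    intro i _ j hj
    simp only [hW]
    refine add_le_add le_rfl ?_
    exact Finset.single_le_sum (f := fun j => Θ i j) (fun _ _ => Multiset.zero_le _)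
      (Finset.mem_range.2 (by omega))
  have leV : ∀ i ≤ n, ∀ j ≤ n, p + Θ i j ≤ V j := by
    intro i hi j _
    simp only [hV]
    refine add_le_add le_rfl ?_
    exact Finset.single_le_sum (f := fun i => Θ i j) (fun _ _ => Multiset.zero_le _)
      (Finset.mem_range.2 (by omega))
  -- every good column equals some row
  have hB : ∀ j < n, ∃ i ≤ n, W i = V j := by
    intro j hj
    by_contra hcon
    push Not at hcon
    have hc : ∀ i ≤ n, Multiset.card (p + Θ i j) ≤ 1 := by
      intro i hi
      by_contra hlt
      push Not at hlt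
      have hnd : (p + Θ i j).Nodup := Multiset.nodup_of_le (leW i hi j hj.le)
        (nd _ (hrow' i hi))
      have hcard : 1 < (p + Θ i j).toFinset.card := by
        rw [Multiset.toFinset_card_of_nodup hnd]
        exact hlt
      obtain ⟨x, hx, y, hy, hxy⟩ := Finset.one_lt_card.1 hcard
      rw [Multiset.mem_toFinset] at hx hy
      exact hxy (inter _ (hrow' i hi) _ (hcol' j hj) (hcon i hi) x y
        (Multiset.mem_of_le (leW i hi j hj.le) hx) (Multiset.mem_of_le (leV i hi j hj.le) hx)
        (Multiset.mem_of_le (leW i hi j hj.le) hy) (Multiset.mem_of_le (leV i hi j hj.le) hy))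
    have hp : Multiset.card p = 0 := by
      have h1 := hc 0 (Nat.zero_le _)
      have h2 := hΘ 0 (Nat.zero_le _) j hj.le
      rw [Multiset.card_add] at h1
      omega
    have hV1 : Multiset.card (V j) ≤ n + 1 := by
      simp only [hV]
      rw [Multiset.card_add, hp, card_sum]
      have : ∑ i ∈ Finset.range (n + 1), Multiset.card (Θ i j) ≤
          ∑ i ∈ Finset.range (n + 1), 1 := by
        refine Finset.sum_le_sum ?_
        intro i hi
        have := hc i (by
          have := Finset.mem_range.1 hi
          omega)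
        rw [Multiset.card_add] at this
        omega
      simp at this
      omega
    have := cd _ (hcol' j hj)
    omega
  -- the total sums agree
  have htot : ∑ i ∈ Finset.range (n + 1), W i = ∑ j ∈ Finset.range (n + 1), V j := by
    simp only [hW, hV, Finset.sum_add_distrib]
    congr 1
    exact Finset.sum_comm
  set WW : Multiset (Multiset X) := (Finset.range (n + 1)).val.map W with hWW
  set VV : Multiset (Multiset X) := (Finset.range n).val.map V with hVV
  have hle : VV ≤ WW := by
    rw [Multiset.le_iff_count]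
    intro l
    by_cases hl : l ∈ VV
    · obtain ⟨j0, hj0, rfl⟩ := Multiset.mem_map.1 hl
      have hj0' : j0 < n := Finset.mem_range.1 hj0
      obtain ⟨i0, hi0, hWi0⟩ := hB j0 hj0'
      -- a private letter
      have hpriv : ∃ y ∈ V j0, ∀ i ≤ n, W i ≠ V j0 → y ∉ W i := by
        by_contra hcon
        push Not at hcon
        have hch : ∀ y : X, ∃ i : ℕ, y ∈ V j0 → (i ≤ n ∧ W i ≠ V j0 ∧ y ∈ W i) := by
          intro y
          by_cases hy : y ∈ V j0
          · obtain ⟨i, hi, hne, hyi⟩ := hcon y hy
            exact ⟨i, fun _ => ⟨hi, hne, hyi⟩⟩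
          · exact ⟨0, fun h => absurd h hy⟩
        choose g hg using hch
        have hmaps : ∀ y ∈ (V j0).toFinset, g y ∈ (Finset.range (n + 1)) := by
          intro y hy
          rw [Multiset.mem_toFinset] at hy
          have := (hg y hy).1
          exact Finset.mem_range.2 (by omega)
        have hinj : Set.InjOn g ((V j0).toFinset : Set X) := by
          intro y hy z hz hyz
          have hy' : y ∈ V j0 := by simpa using hy
          have hz' : z ∈ V j0 := by simpa using hz
          obtain ⟨h1, h2, h3⟩ := hg y hy'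
          obtain ⟨h4, h5, h6⟩ := hg z hz'
          rw [← hyz] at h6
          exact inter _ (hcol' j0 hj0') _ (hrow' _ h1) (fun e => h2 e.symm) y z hy' h3 hz' h6
        have := Finset.card_le_card_of_injOn g hmaps hinj
        rw [Multiset.toFinset_card_of_nodup (nd _ (hcol' j0 hj0')), cd _ (hcol' j0 hj0'),
          Finset.card_range] at this
        omega
      obtain ⟨y, hy, hypriv⟩ := hpriv
      have hc1 : Multiset.count y (∑ i ∈ Finset.range (n + 1), W i) =
          Multiset.count (V j0) WW := by
        rw [Multiset.count_sum', hWW, Multiset.count_map, Finset.sum_congr rfl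
          (g := fun i => if V j0 = W i then 1 else 0)]
        · rw [Finset.sum_boole]
          rfl
        · intro i hi
          have hi' : i ≤ n := by
            have := Finset.mem_range.1 hi
            omega
          by_cases e : V j0 = W i
          · rw [if_pos e, ← e]
            exact Multiset.count_eq_one_of_mem (nd _ (hcol' j0 hj0')) hy
          · rw [if_neg e]
            exact Multiset.count_eq_zero_of_notMem (hypriv i hi' (fun h => e h.symm))
      have hc2 : Multiset.count (V j0) VV ≤
          Multiset.count y (∑ j ∈ Finset.range (n + 1), V j) := by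
        rw [Multiset.count_sum', hVV, Multiset.count_map, Finset.sum_range_succ]
        refine le_trans ?_ (Nat.le_add_right _ _)
        calc Multiset.card (Multiset.filter (fun j => V j0 = V j) (Finset.range n).val)
            = ∑ j ∈ Finset.range n, (if V j0 = V j then 1 else 0) := by
              rw [Finset.sum_boole]
              rfl
          _ ≤ ∑ j ∈ Finset.range n, Multiset.count y (V j) := by
              refine Finset.sum_le_sum ?_
              intro j _
              by_cases e : V j0 = V j
              · rw [if_pos e, ← e]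
                exact Multiset.one_le_count_iff_mem.2 hy
              · rw [if_neg e]
                exact Nat.zero_le _
      rw [← hc1, htot]
      exact hc2
    · rw [Multiset.count_eq_zero_of_notMem hl]
      exact Nat.zero_le _
  obtain ⟨D, hD⟩ := Multiset.le_iff_exists_add.1 hle
  have hcardD : Multiset.card D = 1 := by
    have := congrArg Multiset.card hD
    rw [Multiset.card_add, hWW, hVV, Multiset.card_map, Multiset.card_map] at this
    simp at this
    omega
  obtain ⟨l, rfl⟩ := Multiset.card_eq_one.1 hcardD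
  have hl : l ∈ q := by
    have : l ∈ WW := by
      rw [hD]
      simp
    obtain ⟨i, hi, rfl⟩ := Multiset.mem_map.1 this
    have hi' := Finset.mem_range.1 hi
    exact hrow' i (by omega)
  have hs : ∑ i ∈ Finset.range (n + 1), W i = ∑ j ∈ Finset.range n, V j + l := by
    have h1 : WW.sum = ∑ i ∈ Finset.range (n + 1), W i := rfl
    have h2 : VV.sum = ∑ j ∈ Finset.range n, V j := rfl
    rw [← h1, ← h2, hD, Multiset.sum_add, Multiset.sum_singleton]
  rw [htot, Finset.sum_range_succ] at hs
  have : V n = l := add_left_cancel hs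
  change V n ∈ q
  rw [this]
  exact hl

theorem syn_grid_of_ne {X : Type} {k : ℕ} {q : Set (Multiset X)} (hq : Nice k q) (n : ℕ)
    (hn1 : 1 ≤ n) (hn : n + 1 ≠ k) : Satisfies (synAlg q) (grid n) := by
  classical
  rw [syn_satisfies_iff]
  intro σ
  have e : ((grid n).2.subst σ) = .add ((grid n).1.subst σ) ((colT n n).subst σ) := rfl
  rw [e, ctx_add]
  refine (Set.inter_eq_left.2 ?_).symm
  intro p hp w hw
  obtain ⟨θ, hθ, rfl⟩ := (mem_words_prodT σ _ n w).1 hw
  have hex : ∀ i j : ℕ, ∃ u, u ∈ words ((gvar i j).subst σ) := fun i j => words_nonempty _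
  choose u hu using hex
  set Θ : ℕ → ℕ → Multiset X := fun i j => if j = n then (if i ≤ n then θ i else u i j)
    else u i j with hΘdef
  have hΘmem : ∀ i j, Θ i j ∈ words ((gvar i j).subst σ) := by
    intro i j
    simp only [hΘdef]
    by_cases hj : j = n
    · rw [if_pos hj]
      by_cases hi : i ≤ n
      · rw [if_pos hi, hj]
        exact hθ i hi
      · rw [if_neg hi]
        exact hu i j
    · rw [if_neg hj]
      exact hu i j
  have hlast : ∑ i ∈ Finset.range (n + 1), θ i = ∑ i ∈ Finset.range (n + 1), Θ i n := by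
    refine Finset.sum_congr rfl ?_
    intro i hi
    have : i ≤ n := by
      have := Finset.mem_range.1 hi
      omega
    simp [hΘdef, this]
  rw [hlast]
  refine grid_lemma hq.nodup hq.card hq.inter n hn Θ p ?_ ?_ ?_
  · intro i _ j _
    exact card_pos_of_mem_words _ _ (hΘmem i j)
  · intro i hi
    refine hp _ ((mem_words_lhs σ n hn1 _).2 (Or.inl ⟨i, hi, ?_⟩))
    exact (mem_words_prodT σ _ n _).2 ⟨fun j => Θ i j, fun j _ => hΘmem i j, rfl⟩
  · intro j hj
    refine hp _ ((mem_words_lhs σ n hn1 _).2 (Or.inr ⟨j, hj, ?_⟩))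
    exact (mem_words_prodT σ _ n _).2 ⟨fun i => Θ i j, fun i _ => hΘmem i j, rfl⟩

/-! ## The grid line system -/

/-- Row line `i` of the `k × k` grid. -/
def rowL (k : ℕ) (i : Fin k) : Multiset (Fin k × Fin k) := Finset.univ.val.map (fun j => (i, j))

/-- Column line `j` of the `k × k` grid. -/
def colL (k : ℕ) (j : Fin k) : Multiset (Fin k × Fin k) := Finset.univ.val.map (fun i => (i, j))

/-- All row lines, and all column lines except the last one, of the `(n+1) × (n+1)` grid. -/
def lines (n : ℕ) : Set (Multiset (Fin (n + 1) × Fin (n + 1))) :=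
  {w | (∃ i, w = rowL (n + 1) i) ∨ ∃ j, j ≠ Fin.last n ∧ w = colL (n + 1) j}

theorem mem_rowL {k : ℕ} (i : Fin k) (x : Fin k × Fin k) : x ∈ rowL k i ↔ x.1 = i := by
  unfold rowL
  rw [Multiset.mem_map]
  constructor
  · rintro ⟨j, _, rfl⟩
    rfl
  · intro h
    exact ⟨x.2, Finset.mem_univ_val _, by rw [← h]⟩

theorem mem_colL {k : ℕ} (j : Fin k) (x : Fin k × Fin k) : x ∈ colL k j ↔ x.2 = j := by
  unfold colL
  rw [Multiset.mem_map]
  constructor
  · rintro ⟨i, _, rfl⟩
    rfl
  · intro h
    exact ⟨x.1, Finset.mem_univ_val _, by rw [← h]⟩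

theorem colL_notMem_lines (n : ℕ) (hn : 1 ≤ n) : colL (n + 1) (Fin.last n) ∉ lines n := by
  rintro (⟨i, h⟩ | ⟨j, hj, h⟩)
  · have h1 : ∀ x, x ∈ colL (n + 1) (Fin.last n) ↔ x ∈ rowL (n + 1) i := fun x => by rw [h]
    have h2 := (h1 (0, Fin.last n)).1 ((mem_colL _ _).2 rfl)
    have h3 := (h1 (Fin.last n, Fin.last n)).1 ((mem_colL _ _).2 rfl)
    rw [mem_rowL] at h2 h3
    have h4 : (0 : Fin (n + 1)) = Fin.last n := h2.trans h3.symm
    have := congrArg Fin.val h4
    simp at this
    omega
  · have h1 : ∀ x, x ∈ colL (n + 1) (Fin.last n) ↔ x ∈ colL (n + 1) j := fun x => by rw [h]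
    have h2 := (h1 (0, Fin.last n)).1 ((mem_colL _ _).2 rfl)
    rw [mem_colL] at h2
    exact hj h2.symm

/-- The transversals `i + j = c`. -/
theorem transversal (n : ℕ) (c : Fin (n + 1)) : ∀ l ∈ lines n,
    ∃! x : Fin (n + 1) × Fin (n + 1), x ∈ l ∧ x ∈ {x : Fin (n + 1) × Fin (n + 1) | x.1 + x.2 = c} := by
  rintro l (⟨i, rfl⟩ | ⟨j, _, rfl⟩)
  · refine ⟨(i, c - i), ⟨(mem_rowL _ _).2 rfl, ?_⟩, ?_⟩
    · simp
    · rintro ⟨a, b⟩ ⟨h1, h2⟩
      rw [mem_rowL] at h1
      simp only [Set.mem_ofPred_eq] at h1 h2
      subst h1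
      rw [← h2]
      simp
  · refine ⟨(c - j, j), ⟨(mem_colL _ _).2 rfl, ?_⟩, ?_⟩
    · simp
    · rintro ⟨a, b⟩ ⟨h1, h2⟩
      rw [mem_colL] at h1
      simp only [Set.mem_ofPred_eq] at h1 h2
      subst h1
      rw [← h2]
      simp

theorem lines_inter (n : ℕ) : ∀ w ∈ lines n, ∀ w' ∈ lines n, w ≠ w' → ∀ x y,
    x ∈ w → x ∈ w' → y ∈ w → y ∈ w' → x = y := by
  rintro w (⟨i, rfl⟩ | ⟨j, _, rfl⟩) w' (⟨i', rfl⟩ | ⟨j', _, rfl⟩) hne x y h1 h2 h3 h4
  · rw [mem_rowL] at h1 h2
    exact absurd (by rw [← h1, h2]) hne
  · rw [mem_rowL] at h1 h3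
    rw [mem_colL] at h2 h4
    exact Prod.ext (h1.trans h3.symm) (h2.trans h4.symm)
  · rw [mem_colL] at h1 h3
    rw [mem_rowL] at h2 h4
    exact Prod.ext (h2.trans h4.symm) (h1.trans h3.symm)
  · rw [mem_colL] at h1 h2
    exact absurd (by rw [← h1, h2]) hne

theorem nice_lines (n : ℕ) (hn : 1 ≤ n) : Nice (n + 1) (lines n) where
  nodup := by
    rintro w (⟨i, rfl⟩ | ⟨j, _, rfl⟩)
    · exact Multiset.Nodup.map (fun a b h => (Prod.ext_iff.1 h).2) Finset.univ.nodup
    · exact Multiset.Nodup.map (fun a b h => (Prod.ext_iff.1 h).1) Finset.univ.nodup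
  card := by
    rintro w (⟨i, rfl⟩ | ⟨j, _, rfl⟩)
    · simp [rowL]
    · simp [colL]
  inter := lines_inter n
  trans := by
    intro w hw w' hw' hne
    by_contra hcon
    push Not at hcon
    have h0 : ∀ c : Fin (n + 1), ∃ x, x ∈ w ∧ x ∈ w' ∧ x.1 + x.2 = c := by
      intro c
      obtain ⟨x, ⟨hx, hxc⟩, _⟩ := transversal n c w hw
      obtain ⟨y, ⟨hy, hyc⟩, _⟩ := transversal n c w' hw'
      by_cases e : x = y
      · subst e
        exact ⟨x, hx, hy, hxc⟩
      · exact absurd hyc (hcon _ (transversal n c) x hx y hy e hxc)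
    obtain ⟨x, hx, hx', hxc⟩ := h0 0
    obtain ⟨y, hy, hy', hyc⟩ := h0 1
    have : x = y := lines_inter n w hw w' hw' hne x y hx hx' hy hy'
    subst this
    rw [hxc] at hyc
    have := congrArg Fin.val hyc
    have h1 : (1 : Fin (n + 1)).val = 1 := by
      rw [Fin.val_one']
      exact Nat.mod_eq_of_lt (by omega)
    rw [h1] at this
    simp at this

/-- The algebra that separates the `n`-th grid identity from the others. -/
def C (n : ℕ) : Alg := synAlg (lines n)

theorem sum_range_singleton {Y : Type} (k : ℕ) (f : Fin (k + 1) → Y) (g : ℕ → Multiset Y)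
    (h : ∀ j : Fin (k + 1), g j = {f j}) :
    ∑ j ∈ Finset.range (k + 1), g j = Finset.univ.val.map f := by
  rw [Finset.sum_range]
  have : ∀ j : Fin (k + 1), g j = {f j} := h
  rw [Finset.sum_congr rfl (fun j _ => this j)]
  rw [Finset.sum_eq_multiset_sum, ← Multiset.sum_map_singleton (Finset.univ.val.map f),
    Multiset.map_map]
  rfl

theorem C_not_grid (n : ℕ) (hn : 1 ≤ n) : ¬ Satisfies (C n) (grid n) := by
  intro h
  unfold C at h
  rw [syn_satisfies_iff] at h
  set σ : ℕ → Term (Fin (n + 1) × Fin (n + 1)) := fun m =>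
    .var (Fin.ofNat (n + 1) (Nat.unpair m).1, Fin.ofNat (n + 1) (Nat.unpair m).2) with hσ
  have hvar : ∀ i j : ℕ, words ((gvar i j).subst σ) =
      {{(Fin.ofNat (n + 1) i, Fin.ofNat (n + 1) j)}} := by
    intro i j
    simp [gvar, Term.subst, hσ, words]
  have hval : ∀ j : Fin (n + 1), Fin.ofNat (n + 1) (j : ℕ) = j := by
    intro j
    exact Fin.ofNat_val_eq_self j
  have hr : ∀ i, ∀ w ∈ words ((rowT n i).subst σ), w = rowL (n + 1) (Fin.ofNat (n + 1) i) := by
    intro i w hw
    obtain ⟨θ, hθ, rfl⟩ := (mem_words_prodT σ _ n w).1 hw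
    refine sum_range_singleton n _ θ ?_
    intro j
    have := hθ j (Nat.le_of_lt_succ j.2)
    rw [hvar, hval] at this
    exact this
  have hc : ∀ j, ∀ w ∈ words ((colT n j).subst σ), w = colL (n + 1) (Fin.ofNat (n + 1) j) := by
    intro j w hw
    obtain ⟨θ, hθ, rfl⟩ := (mem_words_prodT σ _ n w).1 hw
    refine sum_range_singleton n _ θ ?_
    intro i
    have := hθ i (Nat.le_of_lt_succ i.2)
    rw [hvar, hval] at this
    exact this
  have h0 : (0 : Multiset (Fin (n + 1) × Fin (n + 1))) ∈ ctx (lines n) ((grid n).1.subst σ) := by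
    intro w hw
    rw [zero_add]
    rcases (mem_words_lhs σ n hn w).1 hw with ⟨i, _, hw⟩ | ⟨j, hj, hw⟩
    · exact Or.inl ⟨_, hr i w hw⟩
    · refine Or.inr ⟨_, ?_, hc j w hw⟩
      intro e
      have := congrArg Fin.val e
      simp only [Fin.ofNat, Fin.val_last] at this
      rw [Nat.mod_eq_of_lt (by omega)] at this
      omega
  rw [h σ] at h0
  obtain ⟨w, hw⟩ := words_nonempty ((colT n n).subst σ)
  have h1 := h0 w (Or.inr hw)
  rw [zero_add, hc n w hw] at h1
  have h2 : Fin.ofNat (n + 1) n = Fin.last n := by
    apply Fin.ext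
    simp only [Fin.ofNat, Fin.val_last]
    exact Nat.mod_eq_of_lt (by omega)
  rw [h2] at h1
  exact colL_notMem_lines n hn h1

/-! ## `S_7` as a subalgebra of `S_7^0` and the grid identities in `S_7` -/

/-- The inclusion of `S_7` into `S_7^0`. -/
def incl : E7 → E70
  | .one => .one
  | .a => .a
  | .t => .t

theorem incl_inj : Function.Injective incl := by
  intro x y; revert x y; decide

theorem incl_add (x y : E7) : incl (E7.add x y) = E70.add (incl x) (incl y) := by
  revert x y; decide

theorem incl_mul (x y : E7) : incl (E7.mul x y) = E70.mul (incl x) (incl y) := by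
  revert x y; decide

theorem incl_ne_zero (x : E7) : incl x ≠ .zero := by
  revert x; decide

theorem eval_incl {X : Type} (φ : X → E7) (t : Term X) :
    t.eval S70 (fun x => incl (φ x)) = incl (t.eval S7 φ) := by
  induction t with
  | var x => rfl
  | add s t hs ht =>
    have h : (Term.add s t).eval S70 (fun x => incl (φ x)) =
      E70.add (s.eval S70 (fun x => incl (φ x))) (t.eval S70 (fun x => incl (φ x))) := rfl
    rw [h, hs, ht, ← incl_add]
    rfl
  | mul s t hs ht =>
    have h : (Term.mul s t).eval S70 (fun x => incl (φ x)) =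
      E70.mul (s.eval S70 (fun x => incl (φ x))) (t.eval S70 (fun x => incl (φ x))) := rfl
    rw [h, hs, ht, ← incl_mul]
    rfl

theorem S7_of_S70 (e : Term ℕ × Term ℕ) (h : Satisfies S70 e) : Satisfies S7 e := by
  intro φ
  apply incl_inj
  rw [← eval_incl, ← eval_incl]
  exact h _

/-- Numerical weight: `1 ↦ 0`, `a ↦ 1`, `t ↦ 2`. -/
def wt : E70 → ℕ
  | .zero => 0
  | .one => 0
  | .a => 1
  | .t => 2

theorem wval_weight {X : Type} (ψ : X → E70) (w : Multiset X) (h : ∀ x ∈ w, ψ x ≠ .zero) :
    (le70 (wval ψ w) .one ↔ (w.map (fun x => wt (ψ x))).sum = 0) ∧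
    (le70 (wval ψ w) .a ↔ (w.map (fun x => wt (ψ x))).sum = 1) := by
  induction w using Multiset.induction_on with
  | empty =>
    constructor
    · exact ⟨fun _ => rfl, fun _ => (by decide : le70 E70.one E70.one)⟩
    · constructor
      · intro h
        exact absurd h (by decide : ¬ le70 E70.one E70.a)
      · intro h
        simp at h
  | cons x w ih =>
    obtain ⟨h1, h2⟩ := ih (fun y hy => h y (Multiset.mem_cons_of_mem hy))
    have h3 := h x (Multiset.mem_cons_self x w)
    have h4 := wval_ne_zero ψ w (fun y hy => h y (Multiset.mem_cons_of_mem hy))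
    rw [wval_cons, Multiset.map_cons, Multiset.sum_cons]
    generalize (w.map (fun x => wt (ψ x))).sum = N at h1 h2
    generalize wval ψ w = z at h1 h2 h4
    generalize ψ x = y at h3
    cases y <;> cases z <;> simp_all [wt, le70, E70.mul, E70.add] <;> omega

theorem S7_grid (n : ℕ) (hn : 1 ≤ n) : Satisfies S7 (grid n) := by
  intro φ
  apply incl_inj
  rw [← eval_incl, ← eval_incl]
  set ψ : ℕ → E70 := fun x => incl (φ x) with hψ
  have hne : ∀ x, ψ x ≠ .zero := fun x => incl_ne_zero _
  have h0 : (grid n).2.eval S70 ψ = E70.add ((lhsT n).eval S70 ψ) ((colT n n).eval S70 ψ) := rfl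
  have h1 : (grid n).1.eval S70 ψ = (lhsT n).eval S70 ψ := rfl
  rw [h0, h1]
  have hval : (lhsT n).eval S70 ψ = incl ((lhsT n).eval S7 φ) := eval_incl φ _
  have comm : ∀ x y : E70, le70 y x → x = E70.add x y := by decide
  apply comm
  rw [eval_le_iff]
  intro w hw
  rw [← subst_var (colT n n)] at hw
  obtain ⟨θ, hθ, rfl⟩ := (mem_words_prodT Term.var _ n w).1 hw
  have hvar : ∀ i j : ℕ, words ((gvar i j).subst Term.var) = {{Nat.pair i j}} := by
    intro i j
    rfl
  have hle := (eval_le_iff ψ (lhsT n) _).1 (le_refl70 _)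
  -- the matrix of weights
  set M : ℕ → ℕ → ℕ := fun i j => wt (ψ (Nat.pair i j)) with hM
  have hsum : ∀ f : ℕ → ℕ, ((∑ j ∈ Finset.range (n + 1), ({f j} : Multiset ℕ)).map
      (fun x => wt (ψ x))).sum = ∑ j ∈ Finset.range (n + 1), wt (ψ (f j)) := by
    intro f
    have : ∀ s : Finset ℕ, ((∑ j ∈ s, ({f j} : Multiset ℕ)).map (fun x => wt (ψ x))).sum =
        ∑ j ∈ s, wt (ψ (f j)) := by
      intro s
      induction s using Finset.induction_on with
      | empty => simp
      | insert a s ha ih => rw [Finset.sum_insert ha, Finset.sum_insert ha, Multiset.map_add,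
          Multiset.sum_add, ih]; simp
    exact this _
  have hrow : ∀ i ≤ n, (∑ j ∈ Finset.range (n + 1), ({Nat.pair i j} : Multiset ℕ)) ∈
      words (lhsT n) := by
    intro i hi
    rw [← subst_var (lhsT n)]
    refine (mem_words_lhs _ n hn _).2 (Or.inl ⟨i, hi, ?_⟩)
    exact (mem_words_prodT _ _ n _).2 ⟨_, fun j _ => by rw [hvar]; rfl, rfl⟩
  have hcol : ∀ j < n, (∑ i ∈ Finset.range (n + 1), ({Nat.pair i j} : Multiset ℕ)) ∈
      words (lhsT n) := by
    intro j hj
    rw [← subst_var (lhsT n)]
    refine (mem_words_lhs _ n hn _).2 (Or.inr ⟨j, hj, ?_⟩)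
    exact (mem_words_prodT _ _ n _).2 ⟨_, fun i _ => by rw [hvar]; rfl, rfl⟩
  have hlast : (∑ j ∈ Finset.range (n + 1), θ j) =
      ∑ i ∈ Finset.range (n + 1), ({Nat.pair i n} : Multiset ℕ) := by
    refine Finset.sum_congr rfl ?_
    intro i hi
    have := hθ i (by
      have := Finset.mem_range.1 hi
      omega)
    rw [hvar] at this
    exact this
  rw [hlast]
  have W := fun w => wval_weight ψ w (fun x _ => hne x)
  rw [hval] at hle ⊢
  generalize Term.eval S7 φ (lhsT n) = c at hle
  cases c with
  | one =>
    have hr : ∀ i ≤ n, ∑ j ∈ Finset.range (n + 1), M i j = 0 := by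
      intro i hi
      have := (W _).1.1 (hle _ (hrow i hi))
      rw [hsum (fun j => Nat.pair i j)] at this
      exact this
    refine (W _).1.2 ?_
    rw [hsum (fun i => Nat.pair i n)]
    refine Finset.sum_eq_zero ?_
    intro i hi
    have h2 := hr i (by
      have := Finset.mem_range.1 hi
      omega)
    exact (Finset.sum_eq_zero_iff.1 h2) n (Finset.mem_range.2 (Nat.lt_succ_self n))
  | a =>
    have hr : ∀ i ∈ Finset.range (n + 1), ∑ j ∈ Finset.range (n + 1), M i j = 1 := by
      intro i hi
      have := (W _).2.1 (hle _ (hrow i (by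
        have := Finset.mem_range.1 hi
        omega)))
      rw [hsum (fun j => Nat.pair i j)] at this
      exact this
    have hcl : ∀ j ∈ Finset.range n, ∑ i ∈ Finset.range (n + 1), M i j = 1 := by
      intro j hj
      have := (W _).2.1 (hle _ (hcol j (Finset.mem_range.1 hj)))
      rw [hsum (fun i => Nat.pair i j)] at this
      exact this
    refine (W _).2.2 ?_
    rw [hsum (fun i => Nat.pair i n)]
    have h2 : ∑ i ∈ Finset.range (n + 1), ∑ j ∈ Finset.range (n + 1), M i j = n + 1 := by
      rw [Finset.sum_congr rfl hr]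
      simp
    rw [Finset.sum_comm, Finset.sum_range_succ, Finset.sum_congr rfl hcl] at h2
    simp only [Finset.sum_const, Finset.card_range, smul_eq_mul, mul_one] at h2
    have : ∑ i ∈ Finset.range (n + 1), M i n = 1 := by omega
    exact this
  | t =>
    have : ∀ z : E70, le70 z .t := by decide
    exact this _

theorem C_of_S70 (n : ℕ) (hn : 1 ≤ n) (e : Term ℕ × Term ℕ) (h : Satisfies S70 e) :
    Satisfies (C n) e := syn_of_S70 (nice_lines n hn) e h

theorem C_grid (n m : ℕ) (hm : 1 ≤ m) (hn : 1 ≤ n) (h : m ≠ n) : Satisfies (C n) (grid m) :=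
  syn_grid_of_ne (nice_lines n hn) m hm (by omega)

/-! ## Counting the varieties -/

/-- The identities of all algebras in a class. -/
def idOf (V : Set Alg) : Set (Term ℕ × Term ℕ) := {e | ∀ A ∈ V, Satisfies A e}

theorem variety_eq (V : Set Alg) (h : IsVariety V) : V = {A | ∀ e ∈ idOf V, Satisfies A e} := by
  obtain ⟨E, rfl⟩ := h
  ext A
  constructor
  · intro hA e he
    exact he A hA
  · intro hA e he
    exact hA e (fun B hB => hB e he)

theorem mem_generated_iff (A B : Alg) :
    B ∈ generated A ↔ ∀ e, Satisfies A e → Satisfies B e := by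
  constructor
  · intro h e he
    have := h {D | ∀ e' ∈ ({e} : Set (Term ℕ × Term ℕ)), Satisfies D e'} ⟨{e}, rfl⟩ (by
      intro e' he'
      rw [Set.mem_singleton_iff.1 he']
      exact he)
    exact this e rfl
  · rintro h V ⟨E, rfl⟩ hA e he
    exact h e (hA e he)

/-- Encoding of terms, showing that there are countably many of them. -/
def code : Term ℕ → List ℕ
  | .var x => [0, x]
  | .add s t => 1 :: (code s).length :: (code s ++ code t)
  | .mul s t => 2 :: (code s).length :: (code s ++ code t)

theorem code_inj : Function.Injective code := by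
  intro s
  induction s with
  | var x =>
    intro t h
    cases t with
    | var y =>
      simp only [code, List.cons.injEq, and_true, true_and] at h
      rw [h]
    | add t1 t2 => simp [code] at h
    | mul t1 t2 => simp [code] at h
  | add s1 s2 h1 h2 =>
    intro t h
    cases t with
    | var y => simp [code] at h
    | add t1 t2 =>
      simp only [code, List.cons.injEq, true_and] at h
      obtain ⟨hl, h⟩ := h
      obtain ⟨ha, hb⟩ := List.append_inj h hl
      rw [h1 ha, h2 hb]
    | mul t1 t2 => simp [code] at h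
  | mul s1 s2 h1 h2 =>
    intro t h
    cases t with
    | var y => simp [code] at h
    | add t1 t2 => simp [code] at h
    | mul t1 t2 =>
      simp only [code, List.cons.injEq, true_and] at h
      obtain ⟨hl, h⟩ := h
      obtain ⟨ha, hb⟩ := List.append_inj h hl
      rw [h1 ha, h2 hb]

instance : Countable (Term ℕ) := code_inj.countable

instance : Infinite (Term ℕ) := Infinite.of_injective Term.var (fun _ _ h => by
  injection h)

/-- The variety attached to a set of natural numbers. -/
def varietyOf (I : Set ℕ) : Set Alg :=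
  {A | ∀ e ∈ {e | Satisfies S7 e ∧ ∀ i ∈ I, Satisfies (C (i + 1)) e}, Satisfies A e}

theorem varietyOf_mem (I : Set ℕ) : IsVariety (varietyOf I) ∧ generated S7 ⊆ varietyOf I ∧
    varietyOf I ⊆ generated S70 := by
  refine ⟨⟨_, rfl⟩, ?_, ?_⟩
  · intro A hA e he
    exact (mem_generated_iff _ _).1 hA e he.1
  · intro A hA
    rw [mem_generated_iff]
    intro e he
    exact hA e ⟨S7_of_S70 e he, fun i _ => C_of_S70 (i + 1) (by omega) e he⟩

theorem varietyOf_grid (I : Set ℕ) (j : ℕ) :
    (∀ A ∈ varietyOf I, Satisfies A (grid (j + 1))) ↔ j ∉ I := by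
  constructor
  · intro h hj
    exact C_not_grid (j + 1) (by omega) (h _ (fun e he => he.2 j hj))
  · intro hj A hA
    refine hA _ ⟨S7_grid _ (by omega), fun i hi => ?_⟩
    refine C_grid (i + 1) (j + 1) (by omega) (by omega) ?_
    intro e
    apply hj
    have : j = i := by omega
    rw [this]
    exact hi

theorem varietyOf_inj : Function.Injective varietyOf := by
  intro I J h
  ext j
  have h1 := varietyOf_grid I j
  rw [h, varietyOf_grid J j] at h1
  exact (not_iff_not.1 h1).symm

/-- **Main theorem.** The interval `[V(S_7), V(S_7^0)]` in the lattice of varieties of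
`{+,·}`-algebras has exactly `2^ℵ₀` elements. -/
theorem result :
    Cardinal.mk {V : Set Alg // IsVariety V ∧ generated S7 ⊆ V ∧ V ⊆ generated S70} =
      Cardinal.continuum := by
  apply le_antisymm
  · have hinj : Function.Injective
        (fun V : {V : Set Alg // IsVariety V ∧ generated S7 ⊆ V ∧ V ⊆ generated S70} =>
          ULift.up.{1} (idOf V.1)) := by
      intro V V' h
      have h' : idOf V.1 = idOf V'.1 := ULift.up_injective h
      apply Subtype.ext
      rw [variety_eq V.1 V.2.1, variety_eq V'.1 V'.2.1, h']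
    refine (Cardinal.mk_le_of_injective hinj).trans ?_
    rw [Cardinal.mk_uLift, Cardinal.mk_set, Cardinal.mk_eq_aleph0 (Term ℕ × Term ℕ)]
    simp
  · have hinj : Function.Injective
        (fun I : ULift.{1} (Set ℕ) => (⟨varietyOf I.down, varietyOf_mem I.down⟩ :
          {V : Set Alg // IsVariety V ∧ generated S7 ⊆ V ∧ V ⊆ generated S70})) := by
      intro I J h
      have h' : varietyOf I.down = varietyOf J.down := congrArg Subtype.val h
      exact ULift.down_injective (varietyOf_inj h')
    refine le_trans ?_ (Cardinal.mk_le_of_injective hinj)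
    rw [Cardinal.mk_uLift, Cardinal.mk_set, Cardinal.mk_nat]
    simp

end Pool.Agent.Results.MP_9c5c66_al.Continuum
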